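import Mathlib

/-!
# MP_78a590_co, Q1: trades that are not combinations of rectangular trades

In every Hadamard matrix of order at least `3` (hence at least `4`), the trade coming from a cyclic
permutation of three rows is not a `Z_2`-linear combination of rectangular trades.
-/

namespace Pool.Agent.Results.MP_78a590_co.CyclicRowTrade

open Finset

/-- `H` is a (real) Hadamard matrix of order `n`. -/
def IsHadamard {n : ℕ} (H : Matrix (Fin n) (Fin n) ℤ) : Prop :=
  (∀ i j, H i j = 1 ∨ H i j = -1) ∧ H * H.transpose = (n : ℤ) • (1 : Matrix (Fin n) (Fin n) ℤ)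

/-- `H` with the entries at the positions in `T` negated. -/
def negateOn {n : ℕ} (H : Matrix (Fin n) (Fin n) ℤ) (T : Finset (Fin n × Fin n)) :
    Matrix (Fin n) (Fin n) ℤ :=
  Matrix.of fun i j => if (i, j) ∈ T then - H i j else H i j

/-- `T` is a trade in `H`: negating the entries of `H` in `T` gives another Hadamard matrix. -/
def IsTrade {n : ℕ} (H : Matrix (Fin n) (Fin n) ℤ) (T : Finset (Fin n × Fin n)) : Prop :=
  IsHadamard (negateOn H T) ∧ negateOn H T ≠ H

/-- `T` is rectangular: a set of rows times a set of columns. -/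
def IsRectangular {n : ℕ} (T : Finset (Fin n × Fin n)) : Prop :=
  ∃ A B : Finset (Fin n), T = A ×ˢ B

/-- The indicator vector of `T` over `F_2`. -/
def ind {n : ℕ} (T : Finset (Fin n × Fin n)) : Fin n × Fin n → ZMod 2 :=
  fun x => if x ∈ T then 1 else 0

section

variable {n : ℕ} {H : Matrix (Fin n) (Fin n) ℤ}

lemma sq_one (hH : IsHadamard H) (i j : Fin n) : H i j * H i j = 1 := by
  rcases hH.1 i j with h | h <;> rw [h] <;> norm_num

lemma row_orth (hH : IsHadamard H) {i j : Fin n} (hij : i ≠ j) : ∑ b, H i b * H j b = 0 := by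
  have := congrFun (congrFun hH.2 i) j
  rw [Matrix.mul_apply] at this
  simpa [hij] using this

lemma transpose_mul (hH : IsHadamard H) (hn : 0 < n) :
    H.transpose * H = (n : ℤ) • (1 : Matrix (Fin n) (Fin n) ℤ) := by
  have hn0 : (n : ℚ) ≠ 0 := by positivity
  -- over the rationals
  let HQ : Matrix (Fin n) (Fin n) ℚ := H.map (Int.castRingHom ℚ)
  have h1 : HQ * HQ.transpose = (n : ℚ) • (1 : Matrix (Fin n) (Fin n) ℚ) := by
    ext i j
    have h2 := congrFun (congrFun hH.2 i) j
    rw [Matrix.mul_apply] at h2 ⊢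
    have h3 := congrArg (fun z : ℤ => (z : ℚ)) h2
    simp only [Matrix.transpose_apply, Matrix.smul_apply] at h3 ⊢
    push_cast at h3
    simp only [HQ, Matrix.map_apply, eq_intCast]
    rw [h3]
    by_cases hij : i = j
    · subst hij; simp
    · simp [hij]
  have h2 : HQ * ((n : ℚ)⁻¹ • HQ.transpose) = 1 := by
    rw [Matrix.mul_smul, h1, smul_smul, inv_mul_cancel₀ hn0, one_smul]
  have h3 : ((n : ℚ)⁻¹ • HQ.transpose) * HQ = 1 := mul_eq_one_comm.1 h2
  have h4 : HQ.transpose * HQ = (n : ℚ) • (1 : Matrix (Fin n) (Fin n) ℚ) := by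
    rw [← h3, Matrix.smul_mul, smul_smul, mul_inv_cancel₀ hn0, one_smul]
  ext i j
  have h5 := congrFun (congrFun h4 i) j
  rw [Matrix.mul_apply] at h5 ⊢
  have h6 : ((∑ k, H.transpose i k * H k j : ℤ) : ℚ)
      = (((n : ℤ) • (1 : Matrix (Fin n) (Fin n) ℤ)) i j : ℤ) := by
    push_cast
    simp only [HQ, Matrix.transpose_apply, Matrix.map_apply, eq_intCast, Matrix.smul_apply] at h5 ⊢
    rw [h5]
    by_cases hij : i = j
    · subst hij; simp
    · simp [hij]
  exact_mod_cast h6

lemma col_orth (hH : IsHadamard H) (hn : 0 < n) {x y : Fin n} (hxy : x ≠ y) :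
    ∑ a, H a x * H a y = 0 := by
  have := congrFun (congrFun (transpose_mul hH hn) x) y
  rw [Matrix.mul_apply] at this
  simpa [hxy] using this

/-- In a rectangular trade `A × B`, a column in `B` and a column outside `B` are orthogonal on
the rows in `A`. -/
lemma rect_orth (hH : IsHadamard H) (hn : 0 < n) {A B : Finset (Fin n)}
    (hT : IsTrade H (A ×ˢ B)) {x y : Fin n} (hx : x ∈ B) (hy : y ∉ B) :
    ∑ a ∈ A, H a x * H a y = 0 := by
  have hxy : x ≠ y := by rintro rfl; exact hy hx
  have h1 := col_orth hH hn hxy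
  have h2 := col_orth hT.1 hn hxy
  rw [← Finset.sum_filter_add_sum_filter_not univ (fun a => a ∈ A)] at h1 h2
  have e1 : ∑ a ∈ univ.filter (fun a => a ∈ A), negateOn H (A ×ˢ B) a x * negateOn H (A ×ˢ B) a y
      = - ∑ a ∈ univ.filter (fun a => a ∈ A), H a x * H a y := by
    rw [← Finset.sum_neg_distrib]
    apply Finset.sum_congr rfl
    intro a ha
    have ha' := (Finset.mem_filter.1 ha).2
    simp [negateOn, ha', hx, hy]
  have e2 : ∑ a ∈ univ.filter (fun a => ¬ a ∈ A), negateOn H (A ×ˢ B) a x * negateOn H (A ×ˢ B) a y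
      = ∑ a ∈ univ.filter (fun a => ¬ a ∈ A), H a x * H a y := by
    apply Finset.sum_congr rfl
    intro a ha
    have ha' := (Finset.mem_filter.1 ha).2
    simp [negateOn, ha']
  rw [e1, e2] at h2
  have e3 : univ.filter (fun a => a ∈ A) = A := by ext; simp
  rw [e3] at h1 h2
  linarith

/-- the Gram numbers of a rectangular trade -/
lemma gram_eq (hH : IsHadamard H) (hn : 0 < n) {A B : Finset (Fin n)}
    (hT : IsTrade H (A ×ˢ B)) (x y : Fin n) :
    (if x ∈ B then ∑ a ∈ A, H a x * H a y else 0)
      = if y ∈ B then ∑ a ∈ A, H a x * H a y else 0 := by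
  by_cases hx : x ∈ B <;> by_cases hy : y ∈ B
  · simp [hx, hy]
  · simp [hx, hy, rect_orth hH hn hT hx hy]
  · have := rect_orth hH hn hT hy hx
    have h2 : ∑ a ∈ A, H a x * H a y = 0 := by
      rw [← this]
      exact Finset.sum_congr rfl fun a _ => mul_comm _ _
    simp [hx, hy, h2]
  · simp [hx, hy]

/-- The half sum of columns `p` and `q`. -/
def half (H : Matrix (Fin n) (Fin n) ℤ) (p q a : Fin n) : ℤ := (H a p + H a q) / 2

lemma two_half (hH : IsHadamard H) (p q a : Fin n) : 2 * half H p q a = H a p + H a q := by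
  unfold half
  rcases hH.1 a p with h | h <;> rcases hH.1 a q with h' | h' <;> rw [h, h'] <;> norm_num

/-- The functional that vanishes on rectangular trades. -/
def phi (H : Matrix (Fin n) (Fin n) ℤ) (p q r : Fin n) : (Fin n × Fin n → ZMod 2) →ₗ[ZMod 2] ZMod 2 :=
  { toFun := fun f => ∑ a, ((half H p q a : ZMod 2) * (f (a, p) + f (a, r))
      + (half H p r a : ZMod 2) * (f (a, p) + f (a, q)))
    map_add' := by
      intro f g
      rw [← Finset.sum_add_distrib]
      apply Finset.sum_congr rfl
      intro a _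
      simp only [Pi.add_apply]
      ring
    map_smul' := by
      intro c f
      simp only [Pi.smul_apply, smul_eq_mul, RingHom.id_apply, Finset.mul_sum]
      apply Finset.sum_congr rfl
      intro a _
      ring }

lemma cast_odd (hH : IsHadamard H) (i j : Fin n) : ((H i j : ℤ) : ZMod 2) = 1 := by
  rcases hH.1 i j with h | h <;> rw [h] <;> decide

lemma phi_rect (hH : IsHadamard H) (hn : 0 < n) (p q r : Fin n) {A B : Finset (Fin n)}
    (hT : IsTrade H (A ×ˢ B)) : phi H p q r (ind (A ×ˢ B)) = 0 := by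
  -- integer identity
  let bp : ℤ := if p ∈ B then 1 else 0
  let bq : ℤ := if q ∈ B then 1 else 0
  let br : ℤ := if r ∈ B then 1 else 0
  have g1 := gram_eq hH hn hT p q
  have g2 := gram_eq hH hn hT p r
  have g3 := gram_eq hH hn hT q r
  have k1 : bp * ∑ a ∈ A, H a p * H a q = bq * ∑ a ∈ A, H a p * H a q := by
    simpa [bp, bq, ite_mul] using g1
  have k2 : bp * ∑ a ∈ A, H a p * H a r = br * ∑ a ∈ A, H a p * H a r := by
    simpa [bp, br, ite_mul] using g2
  have k3 : bq * ∑ a ∈ A, H a q * H a r = br * ∑ a ∈ A, H a q * H a r := by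
    simpa [bq, br, ite_mul] using g3
  have hS : 2 * ∑ a ∈ A, (half H p q a * (bp * H a p + br * H a r)
      - half H p r a * (bp * H a p + bq * H a q)) = 0 := by
    have : ∀ a ∈ A, 2 * (half H p q a * (bp * H a p + br * H a r)
      - half H p r a * (bp * H a p + bq * H a q))
      = bp * (H a p * H a q) - bq * (H a p * H a q) + br * (H a p * H a r)
        - bp * (H a p * H a r) + br * (H a q * H a r) - bq * (H a q * H a r) := by
      intro a _
      have e1 := two_half hH p q a
      have e2 := two_half hH p r a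
      linear_combination (bp * H a p + br * H a r) * e1 - (bp * H a p + bq * H a q) * e2
    rw [Finset.mul_sum, Finset.sum_congr rfl this]
    simp only [Finset.sum_add_distrib, Finset.sum_sub_distrib, ← Finset.mul_sum]
    linarith
  have hS' : ∑ a ∈ A, (half H p q a * (bp * H a p + br * H a r)
      - half H p r a * (bp * H a p + bq * H a q)) = 0 := by
    have h2 : (2 : ℤ) ≠ 0 := by norm_num
    exact (mul_eq_zero.1 hS).resolve_left h2
  have hc := congrArg (fun z : ℤ => (z : ZMod 2)) hS'
  simp only [Int.cast_sum, Int.cast_sub, Int.cast_mul, Int.cast_add, cast_odd hH, mul_one,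
    Int.cast_zero] at hc
  change ∑ a, ((half H p q a : ZMod 2) * (ind (A ×ˢ B) (a, p) + ind (A ×ˢ B) (a, r))
      + (half H p r a : ZMod 2) * (ind (A ×ˢ B) (a, p) + ind (A ×ˢ B) (a, q))) = 0
  rw [← hc, ← Finset.sum_subset (Finset.subset_univ A)]
  · apply Finset.sum_congr rfl
    intro a ha
    have e : ∀ c : Fin n, ind (A ×ˢ B) (a, c) = (((if c ∈ B then 1 else 0 : ℤ)) : ZMod 2) := by
      intro c
      unfold ind
      by_cases hcB : c ∈ B <;> simp [ha, hcB]
    rw [e, e, e, sub_eq_add_neg, ← ZMod.neg_eq_self_mod_two ((half H p r a : ZMod 2) * _)]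
    congr 1
    rw [ZMod.neg_eq_self_mod_two, ZMod.neg_eq_self_mod_two]
  · intro a _ ha
    simp [ind, ha]

/-! ### The trade -/

lemma sign_cases (hH : IsHadamard H) (a b : Fin n) : H a b = 1 ∨ H a b = -1 := hH.1 a b

lemma exists_all_eq (hH : IsHadamard H) (hn : 0 < n) {i j l : Fin n} (hij : i ≠ j) (hjl : j ≠ l)
    (hil : i ≠ l) : ∃ b, H i b = H j b ∧ H l b = H j b := by
  by_contra hcon
  push Not at hcon
  have h1 : ∀ b, 1 + H i b * H j b + H j b * H l b + H i b * H l b = 0 := by
    intro b
    have := hcon b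
    rcases hH.1 i b with h | h <;> rcases hH.1 j b with h' | h' <;> rcases hH.1 l b with h'' | h'' <;>
      (rw [h, h', h''] at this ⊢; revert this; norm_num)
  have h2 : ∑ b, (1 + H i b * H j b + H j b * H l b + H i b * H l b) = 0 :=
    Finset.sum_eq_zero fun b _ => h1 b
  rw [Finset.sum_add_distrib, Finset.sum_add_distrib, Finset.sum_add_distrib, row_orth hH hij,
    row_orth hH hjl, row_orth hH hil] at h2
  simp at h2
  omega

/-- a column in which row `i` is the odd one out -/
lemma exists_odd_one (hH : IsHadamard H) (hn : 0 < n) {i j l : Fin n} (hij : i ≠ j) (hjl : j ≠ l)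
    (hil : i ≠ l) : ∃ b, H j b = - H i b ∧ H l b = - H i b := by
  by_contra hcon
  push Not at hcon
  have h1 : ∀ b, 1 - H i b * H j b + H j b * H l b - H i b * H l b = 0 := by
    intro b
    have := hcon b
    rcases hH.1 i b with h | h <;> rcases hH.1 j b with h' | h' <;> rcases hH.1 l b with h'' | h'' <;>
      (rw [h, h', h''] at this ⊢; revert this; norm_num)
  have h2 : ∑ b, (1 - H i b * H j b + H j b * H l b - H i b * H l b) = 0 :=
    Finset.sum_eq_zero fun b _ => h1 b
  rw [Finset.sum_sub_distrib, Finset.sum_add_distrib, Finset.sum_sub_distrib, row_orth hH hij,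
    row_orth hH hjl, row_orth hH hil] at h2
  simp at h2
  omega

/-- The trade obtained by permuting the rows with `σ`. -/
def rowTrade (H : Matrix (Fin n) (Fin n) ℤ) (σ : Equiv.Perm (Fin n)) : Finset (Fin n × Fin n) :=
  univ.filter fun x => H x.1 x.2 ≠ H (σ x.1) x.2

lemma negateOn_rowTrade (hH : IsHadamard H) (σ : Equiv.Perm (Fin n)) :
    negateOn H (rowTrade H σ) = H.submatrix σ id := by
  ext a b
  simp only [negateOn, rowTrade, Matrix.of_apply, Finset.mem_filter, Finset.mem_univ, true_and,
    Matrix.submatrix_apply, id]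
  rcases hH.1 a b with h | h <;> rcases hH.1 (σ a) b with h' | h' <;> rw [h, h'] <;> norm_num

lemma isHadamard_submatrix (hH : IsHadamard H) (σ : Equiv.Perm (Fin n)) :
    IsHadamard (H.submatrix σ id) := by
  refine ⟨fun i j => hH.1 _ _, ?_⟩
  ext i j
  have := congrFun (congrFun hH.2 (σ i)) (σ j)
  rw [Matrix.mul_apply] at this ⊢
  simp only [Matrix.submatrix_apply, id, Matrix.transpose_apply, Matrix.smul_apply] at this ⊢
  rw [this]
  by_cases hij : i = j
  · subst hij; simp
  · simp [hij]

theorem main (hH : IsHadamard H) (hn : 3 ≤ n) : ∃ T : Finset (Fin n × Fin n), IsTrade H T ∧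
    ind T ∉ Submodule.span (ZMod 2) (ind '' {R | IsTrade H R ∧ IsRectangular R}) := by
  let i : Fin n := ⟨0, by omega⟩
  let j : Fin n := ⟨1, by omega⟩
  let l : Fin n := ⟨2, by omega⟩
  have hij : i ≠ j := by simp [i, j]
  have hjl : j ≠ l := by simp [j, l]
  have hil : i ≠ l := by simp [i, l]
  obtain ⟨p, hp1, hp2⟩ := exists_all_eq hH (by omega) hij hjl hil
  obtain ⟨q, hq1, hq2⟩ := exists_odd_one hH (by omega) hij hjl hil
  obtain ⟨r, hr1, hr2⟩ := exists_odd_one hH (by omega) hij.symm hil hjl
  -- the permutation `i ↦ j ↦ l ↦ i`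
  let σ : Equiv.Perm (Fin n) := Equiv.swap i j * Equiv.swap j l
  have σi : σ i = j := by
    simp [σ, Equiv.swap_apply_of_ne_of_ne hij hil]
  have σj : σ j = l := by
    simp only [σ, Equiv.Perm.mul_apply, Equiv.swap_apply_left]
    rw [Equiv.swap_apply_of_ne_of_ne hil.symm hjl.symm]
  have σl : σ l = i := by
    simp [σ]
  have σo : ∀ a, a ≠ i → a ≠ j → a ≠ l → σ a = a := by
    intro a h1 h2 h3
    simp only [σ, Equiv.Perm.mul_apply]
    rw [Equiv.swap_apply_of_ne_of_ne h2 h3, Equiv.swap_apply_of_ne_of_ne h1 h2]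
  refine ⟨rowTrade H σ, ⟨?_, ?_⟩, ?_⟩
  · rw [negateOn_rowTrade hH]
    exact isHadamard_submatrix hH σ
  · rw [negateOn_rowTrade hH]
    intro h
    have := congrFun (congrFun h i) q
    simp only [Matrix.submatrix_apply, id, σi] at this
    rw [hq1] at this
    rcases hH.1 i q with h' | h' <;> rw [h'] at this <;> norm_num at this
  · intro hmem
    have hle : Submodule.span (ZMod 2) (ind '' {R | IsTrade H R ∧ IsRectangular R})
        ≤ LinearMap.ker (phi H p q r) := by
      rw [Submodule.span_le]
      rintro _ ⟨R, ⟨hR, A, B, rfl⟩, rfl⟩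
      exact phi_rect hH (by omega) p q r hR
    have h0 : phi H p q r (ind (rowTrade H σ)) = 0 := hle hmem
    -- evaluate on the trade
    have hval : phi H p q r (ind (rowTrade H σ)) = 1 := by
      change ∑ a, ((half H p q a : ZMod 2) * (ind (rowTrade H σ) (a, p) + ind (rowTrade H σ) (a, r))
        + (half H p r a : ZMod 2) * (ind (rowTrade H σ) (a, p) + ind (rowTrade H σ) (a, q))) = 1
      have hsub : ∑ a ∈ ({i, j, l} : Finset (Fin n)),
        ((half H p q a : ZMod 2) * (ind (rowTrade H σ) (a, p) + ind (rowTrade H σ) (a, r))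
        + (half H p r a : ZMod 2) * (ind (rowTrade H σ) (a, p) + ind (rowTrade H σ) (a, q)))
        = ∑ a, ((half H p q a : ZMod 2) * (ind (rowTrade H σ) (a, p) + ind (rowTrade H σ) (a, r))
        + (half H p r a : ZMod 2) * (ind (rowTrade H σ) (a, p) + ind (rowTrade H σ) (a, q))) := by
        apply Finset.sum_subset (Finset.subset_univ _)
        intro a _ ha
        simp only [Finset.mem_insert, Finset.mem_singleton, not_or] at ha
        have hz : ∀ c, ind (rowTrade H σ) (a, c) = 0 := by
          intro c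
          simp [ind, rowTrade, σo a ha.1 ha.2.1 ha.2.2]
        rw [hz, hz, hz]
        simp
      rw [← hsub, Finset.sum_insert (by simp [hij, hil]), Finset.sum_insert (by simp [hjl]),
        Finset.sum_singleton]
      simp only [ind, rowTrade, Finset.mem_filter, Finset.mem_univ, true_and, σi, σj, σl, half]
      rw [hp1, hp2, hq1, hq2, hr1, hr2]
      rcases hH.1 j p with h | h <;> rcases hH.1 i q with h' | h' <;>
        rcases hH.1 j r with h'' | h'' <;> rw [h, h', h''] <;> decide
    rw [h0] at hval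
    exact zero_ne_one hval

end

/-- A Hadamard matrix of order four. -/
def H4 : Matrix (Fin 4) (Fin 4) ℤ := !![1, 1, 1, 1; 1, -1, 1, -1; 1, 1, -1, -1; 1, -1, -1, 1]

/-- **Negative answer to Q1.** Every Hadamard matrix of order at least `3` contains a trade that is
not a `Z_2`-linear combination of rectangular trades (and such Hadamard matrices exist). -/
theorem result :
    (∀ (n : ℕ) (H : Matrix (Fin n) (Fin n) ℤ), 3 ≤ n → IsHadamard H →
      ∃ T : Finset (Fin n × Fin n), IsTrade H T ∧
        ind T ∉ Submodule.span (ZMod 2) (ind '' {R | IsTrade H R ∧ IsRectangular R})) ∧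
    (∃ (n : ℕ) (H : Matrix (Fin n) (Fin n) ℤ), 3 ≤ n ∧ IsHadamard H) := by
  refine ⟨fun n H hn hH => main hH hn, 4, H4, by norm_num, ?_, ?_⟩
  · intro i j
    fin_cases i <;> fin_cases j <;> simp [H4]
  · ext i j
    fin_cases i <;> fin_cases j <;> simp [H4, Matrix.mul_apply, Fin.sum_univ_four]

end Pool.Agent.Results.MP_78a590_co.CyclicRowTrade
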